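import Pool.Agent.QSN.StmtsC

set_option autoImplicit false

namespace Pool.Agent.QSN.H49

open Pool.Agent.QSN Pool.Agent.QSX

/-- Row ALM. -/
theorem alm (grn : GrnStmt) (trn : TrnStmt) (cln : ClnStmt) (aln : AlnStmt) : AlmStmt := by
  intro X Y hX S P hP hab hfin C hC htop
  obtain ⟨κ, hκ, C1, hC1⟩ := grn X Y hX S.FF P hP C hC htop
  obtain ⟨C2, hC2⟩ := trn X Y hX S P hP κ C1 hC1
  have hind := cln X hX Y.m C2 hC2.2.2.1 hC2.2.2.2
  exact aln X Y hX P hP hab hfin κ hκ C2 hC2 hind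

end Pool.Agent.QSN.H49
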