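import Pool.Agent.QSN.StmtsB2

set_option autoImplicit false

namespace Pool.Agent.QSN.H49

open Matrix Finset Pool.Agent.QSX Pool.Agent.QSN Filter Topology

theorem pt_ud_zero {m : ℕ} : ud (0 : Fin m → ℝ) = 1 := by
  ext i j
  change (diagonal fun i => Real.exp ((0 : Fin m → ℝ) i)) i j = (1 : Matrix (Fin m) (Fin m) ℝ) i j
  simp only [Pi.zero_apply, Real.exp_zero]
  rw [diagonal_one]

theorem pt_le_sz {m : ℕ} (x : Matrix (Fin m) (Fin m) ℝ) (i j : Fin m) : |x i j| ≤ sz x := by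
  unfold sz
  refine (Finset.single_le_sum (f := fun j => |x i j|) (fun j _ => abs_nonneg _)
    (Finset.mem_univ j)).trans ?_
  exact Finset.single_le_sum (f := fun i => ∑ j, |x i j|)
    (fun i _ => Finset.sum_nonneg fun j _ => abs_nonneg _) (Finset.mem_univ i)

theorem pt_sz_nonneg {m : ℕ} (x : Matrix (Fin m) (Fin m) ℝ) : 0 ≤ sz x :=
  Finset.sum_nonneg fun i _ => Finset.sum_nonneg fun j _ => abs_nonneg _

section

variable {X Y : Dat} {hX : MS X} {H : Grd hX}

/-- the words are good and bounded -/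
theorem pt_gb (wds : WdsStmt) (pln : PlnStmt) (A : AFQ X Y hX H) (i : Fin H.D × Fin 5)
    (m m' : ℕ → Fin H.D → ℤ)
    (hm : ∀ s k, |m s k| ≤ ((HH H.D * A.M s : ℕ) : ℤ))
    (hm' : ∀ s k, |m' s k| ≤ ((HH H.D * A.M s : ℕ) : ℤ))
    (hg : ∀ᶠ s in (A.S.ω : Filter ℕ), H.wd i (A.M s) (m s) (m' s) ∈ A.Gd s) :
    A.GB (fun s => H.wd i (A.M s) (m s) (m' s)) := by
  refine ⟨hg, ?_⟩
  obtain ⟨_, _, h3, _, ⟨K0, h5⟩, _⟩ := wds X hX H
  obtain ⟨K, hK, hp⟩ := pln X.m
  refine ⟨Real.exp (K * (K0 + 1)), Filter.Eventually.of_forall fun s => ?_⟩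
  obtain ⟨x, hx, hwx⟩ := h3 i (A.M s) (m s) (m' s)
  refine ⟨x, hx, hwx, fun a b => ?_⟩
  have hM : 0 < A.M s := by
    obtain ⟨k, hk⟩ := A.pow s
    rw [hk]; positivity
  have hl := h5 i (A.M s) (m s) (m' s) hM (hm s) (hm' s)
  have h := (hp x 0 (X.su x hx)).2.1
  rw [pt_ud_zero, mul_one, ← hwx] at h
  have h1 : Real.log (1 + sz x) ≤ K * (K0 + 1) :=
    h.trans (mul_le_mul_of_nonneg_left (by linarith) hK.le)
  have hsz := pt_sz_nonneg x
  have h2 : 1 + sz x ≤ Real.exp (K * (K0 + 1)) := by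
    rw [← Real.log_le_iff_le_exp (by linarith)]; exact h1
  linarith [pt_le_sz x a b]

end

theorem pt_md_zero {X : Dat} {hX : MS X} (H : Grd hX) (m m' : Fin H.D → ℤ) :
    H.md m m' 0 = m := by
  funext i; simp [Grd.md]

theorem pt_md_top {X : Dat} {hX : MS X} (H : Grd hX) (m m' : Fin H.D → ℤ) :
    H.md m m' H.D = m' := by
  funext i; simp [Grd.md]

theorem pt_gp_add (cen : CenStmt) {X : Dat} {hX : MS X} (H : Grd hX) (M : ℕ) (m z : Fin H.D → ℤ) :
    H.gp M (m + z) = H.gp M m * H.u (fun k => (z k : ℝ) / M) := by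
  rw [Grd.gp, Grd.gp, ← (cen X hX H).2.2.1]
  congr 1
  funext k
  simp only [Pi.add_apply]
  push_cast
  ring

theorem pt_gp_succ (cen : CenStmt) {X : Dat} {hX : MS X} (H : Grd hX) (M : ℕ) (m m' : Fin H.D → ℤ)
    (k : Fin H.D) :
    H.gp M (H.md m m' (k + 1)) =
      H.gp M (H.md m m' k) * ue ((((m' k - m k : ℤ) : ℝ) / M) • H.w k) := by
  have h1 : ue ((((m' k - m k : ℤ) : ℝ) / M) • H.w k) =
      H.u (fun i => if i = k then (((m' k - m k : ℤ) : ℝ) / M) else 0) := by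
    rw [Grd.u]
    congr 1
    simp only [ite_smul, zero_smul, Finset.sum_ite_eq', Finset.mem_univ, if_true]
  rw [h1, Grd.gp, Grd.gp, ← (cen X hX H).2.2.1]
  congr 1
  funext i
  simp only [Pi.add_apply, Grd.md]
  by_cases hik : i = k
  · subst hik
    rw [if_pos (Nat.lt_succ_self _), if_neg (lt_irrefl _), if_pos rfl]
    push_cast
    ring
  · rw [if_neg hik, add_zero]
    have h2 : ((i : ℕ) < (k : ℕ) + 1) ↔ ((i : ℕ) < (k : ℕ)) := by
      constructor
      · intro h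
        have h3 : (i : ℕ) ≠ (k : ℕ) := fun h' => hik (Fin.ext h')
        omega
      · intro h; omega
    simp only [h2]

/-- Row PTQ. -/
theorem ptq (wkt : WktStmt) (cen : CenStmt) (wds : WdsStmt) (ivq : IvqStmt) (pln : PlnStmt) :
    PtqStmt := by
  intro X Y hX H A m m' z hb hg
  have hMpos : ∀ s, 0 < A.M s := by
    intro s
    obtain ⟨k, hk⟩ := A.pow s
    rw [hk]; positivity
  have hMr : ∀ s, (0 : ℝ) < (A.M s : ℝ) := fun s => by exact_mod_cast hMpos s
  obtain ⟨hw1, hw2, hw3, hw4, hw5, hw6⟩ := wds X hX H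
  obtain ⟨hc1, hc2, hc3, hc4⟩ := cen X hX H
  -- the translation
  set u : ℕ → UX X := fun s => H.u (fun k => ((z s k : ℤ) : ℝ) / (A.M s : ℝ)) with hu
  have hshift : ∀ i s, H.wd i (A.M s) (m s + z s) (m' s + z s) =
      H.wd i (A.M s) (m s) (m' s) * u s := by
    intro i s
    rw [hw2]
    obtain ⟨x, hx, hwx⟩ := hw3 i (A.M s) (m s) (m' s)
    rw [hwx]
    exact hc4 _ x hx
  -- good and bounded words
  have hb1 : ∀ s k, |m s k| ≤ ((HH H.D * A.M s : ℕ) : ℤ) := fun s k => (hb s k).1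
  have hb2 : ∀ s k, |m' s k| ≤ ((HH H.D * A.M s : ℕ) : ℤ) := fun s k => (hb s k).2.1
  have hb3 : ∀ s k, |(m s + z s) k| ≤ ((HH H.D * A.M s : ℕ) : ℤ) := fun s k => (hb s k).2.2.1
  have hb4 : ∀ s k, |(m' s + z s) k| ≤ ((HH H.D * A.M s : ℕ) : ℤ) := fun s k => (hb s k).2.2.2
  have gb1 : ∀ i, A.GB (fun s => H.wd i (A.M s) (m s) (m' s)) := fun i =>
    pt_gb wds pln A i m m' hb1 hb2 (hg.mono fun s hs => (hs i).1)
  have gb2 : ∀ i, A.GB (fun s => H.wd i (A.M s) (m s) (m' s) * u s) := by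
    intro i
    have h := pt_gb wds pln A i (fun s => m s + z s) (fun s => m' s + z s) hb3 hb4
      (hg.mono fun s hs => (hs i).2)
    have he : (fun s => H.wd i (A.M s) (m s + z s) (m' s + z s)) =
        fun s => H.wd i (A.M s) (m s) (m' s) * u s := by
      funext s; exact hshift i s
    rw [← he]; exact h
  -- bounds
  have hyb : ∀ s k, |(((m' s k - m s k : ℤ) : ℝ) / (A.M s : ℝ))| ≤ 2 * (HH H.D : ℝ) := by
    intro s k
    rw [abs_div, abs_of_pos (hMr s), div_le_iff₀ (hMr s)]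
    have h1 : |m' s k - m s k| ≤ 2 * ((HH H.D * A.M s : ℕ) : ℤ) := by
      have := abs_sub (m' s k) (m s k)
      linarith [hb1 s k, hb2 s k]
    have h2 : ((|m' s k - m s k| : ℤ) : ℝ) ≤ ((2 * ((HH H.D * A.M s : ℕ) : ℤ) : ℤ) : ℝ) := by
      exact_mod_cast h1
    rw [Int.cast_abs] at h2
    refine h2.trans (le_of_eq ?_)
    push_cast
    ring
  have hzb : ∀ s k, |(((z s k : ℤ) : ℝ) / (A.M s : ℝ))| ≤ 2 * (HH H.D : ℝ) := by
    intro s k
    rw [abs_div, abs_of_pos (hMr s), div_le_iff₀ (hMr s)]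
    have h1 : |z s k| ≤ 2 * ((HH H.D * A.M s : ℕ) : ℤ) := by
      have h0 : z s k = (m s + z s) k - m s k := by simp
      have h3 := abs_sub ((m s + z s) k) (m s k)
      rw [← h0] at h3
      linarith [hb1 s k, hb3 s k]
    have h2 : ((|z s k| : ℤ) : ℝ) ≤ ((2 * ((HH H.D * A.M s : ℕ) : ℤ) : ℤ) : ℝ) := by
      exact_mod_cast h1
    rw [Int.cast_abs] at h2
    refine h2.trans (le_of_eq ?_)
    push_cast
    ring
  -- one application of the invariance
  have key : ∀ (l : hX.ι), hX.rt l ≠ hX.rt (hX.top (hX.comp l)) → ∀ (n n' : ℕ → UX X)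
      (y : ℕ → ℝ), (∀ s, |y s| ≤ 2 * (HH H.D : ℝ) + 1) → (∀ s, n' s = n s * ue (y s • hX.e l)) →
      A.GB n → A.GB n' → A.GB (fun s => n s * u s) → A.GB (fun s => n' s * u s) →
      A.V n (fun s => n s * u s) = A.V n' (fun s => n' s * u s) := by
    intro l hl n n' y hy hn g1 g2 g3 g4
    have hn' : n' = fun s => n s * ue (y s • hX.e l) := funext hn
    subst hn'
    refine ivq X Y hX H A l hl n (fun s => y s • hX.e l)
      (fun s k => ((z s k : ℤ) : ℝ) / (A.M s : ℝ))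
      ((2 * (HH H.D : ℝ) + 1) * (1 + sz (hX.e l))) ?_ ?_ ?_ g1 g2 g3 g4
    · intro s
      exact Submodule.smul_mem _ _ (Submodule.subset_span ⟨l, rfl, rfl⟩)
    · intro s i j
      rw [Matrix.smul_apply, smul_eq_mul, abs_mul]
      have h1 := pt_le_sz (hX.e l) i j
      have h2 := pt_sz_nonneg (hX.e l)
      have h3 : (0 : ℝ) ≤ 2 * (HH H.D : ℝ) + 1 := by positivity
      exact mul_le_mul (hy s) (by linarith) (abs_nonneg _) h3
    · intro s k
      have h2 := pt_sz_nonneg (hX.e l)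
      have h3 : (0 : ℝ) ≤ 2 * (HH H.D : ℝ) + 1 := by positivity
      have h4 := hzb s k
      nlinarith
  -- the induction
  have hind : ∀ k : ℕ, k ≤ H.D →
      A.V (fun s => H.gp (A.M s) (m s)) (fun s => H.gp (A.M s) (m s + z s)) =
        A.V (fun s => H.gp (A.M s) (H.md (m s) (m' s) k))
          (fun s => H.gp (A.M s) (H.md (m s) (m' s) k) * u s) := by
    intro k
    induction k with
    | zero =>
      intro _
      have h1 : (fun s => H.gp (A.M s) (m s + z s)) =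
          (fun s => H.gp (A.M s) (H.md (m s) (m' s) 0) * u s) := by
        funext s
        rw [pt_md_zero, pt_gp_add cen]
      have h2 : (fun s => H.gp (A.M s) (m s)) =
          (fun s => H.gp (A.M s) (H.md (m s) (m' s) 0)) := by
        funext s
        rw [pt_md_zero]
      rw [h1, h2]
    | succ k ih =>
      intro hk
      rw [ih (Nat.le_of_succ_le hk)]
      have hkD : k < H.D := hk
      obtain ⟨_, _, _, _, hw5', hw6'⟩ := wkt X hX H ⟨k, hkD⟩
      set kk : Fin H.D := ⟨k, hkD⟩ with hkk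
      -- the words
      set p : Fin 5 → ℕ → UX X := fun i s => H.wd (kk, i) (A.M s) (m s) (m' s) with hp
      set y : ℕ → ℝ := fun s => (((m' s kk - m s kk : ℤ) : ℝ) / (A.M s : ℝ)) with hy
      have hy1 : ∀ s, |y s| ≤ 2 * (HH H.D : ℝ) + 1 := fun s => by
        have := hyb s kk
        linarith
      have hone : ∀ s : ℕ, |(fun _ : ℕ => (1 : ℝ)) s| ≤ 2 * (HH H.D : ℝ) + 1 := fun s => by
        have : (0 : ℝ) ≤ (HH H.D : ℝ) := Nat.cast_nonneg _
        simp only [abs_one]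
        linarith
      have e01 : ∀ s, p 1 s = p 0 s * ue ((1 : ℝ) • hX.e (H.l kk)) := by
        intro s; rw [one_smul]; rfl
      have e12 : ∀ s, p 2 s = p 1 s * ue (y s • hX.e (H.m kk)) := fun s => rfl
      have e43 : ∀ s, p 3 s = p 4 s * ue (y s • hX.e (H.m kk)) := fun s => rfl
      have e32 : ∀ s, p 2 s = p 3 s * ue ((1 : ℝ) • hX.e (H.l kk)) := by
        intro s
        rw [one_smul, e43 s, e12 s, e01 s, one_smul]
        have h4 : p 4 s = p 0 s * ue (y s • H.w kk) := pt_gp_succ cen H (A.M s) (m s) (m' s) kk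
        rw [h4, ← hc2 kk (y s)]
        group
      have v01 := key (H.l kk) hw5' (p 0) (p 1) (fun _ => 1) hone e01 (gb1 _) (gb1 _) (gb2 _) (gb2 _)
      have v12 := key (H.m kk) hw6' (p 1) (p 2) y hy1 e12 (gb1 _) (gb1 _) (gb2 _) (gb2 _)
      have v32 := key (H.l kk) hw5' (p 3) (p 2) (fun _ => 1) hone e32 (gb1 _) (gb1 _) (gb2 _) (gb2 _)
      have v43 := key (H.m kk) hw6' (p 4) (p 3) y hy1 e43 (gb1 _) (gb1 _) (gb2 _) (gb2 _)
      exact v01.trans (v12.trans (v32.symm.trans v43.symm))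
  rw [hind H.D le_rfl]
  have h1 : (fun s => H.gp (A.M s) (H.md (m s) (m' s) H.D) * u s) =
      (fun s => H.gp (A.M s) (m' s + z s)) := by
    funext s
    rw [pt_md_top, pt_gp_add cen]
  have h2 : (fun s => H.gp (A.M s) (H.md (m s) (m' s) H.D)) =
      (fun s => H.gp (A.M s) (m' s)) := by
    funext s
    rw [pt_md_top]
  rw [h1, h2]

end Pool.Agent.QSN.H49
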